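import Pool.Agent.H59.PG.Stmts

/-!
# Rows AGM, HDL, HAD of the board pgm: the first minimum, and Sylvester matrices
-/

set_option autoImplicit false

namespace Pool.PG.H15R

theorem argm_succ (q : ℕ → ℕ) (M : ℕ) :
    argm q (M + 1) = if q M < q (argm q M) then M else argm q M := by
  unfold argm
  rw [List.range_succ, List.foldl_append]
  rfl

theorem hd_length (j : ℕ) : (hd j).length = 2 ^ j := by
  induction j with
  | zero => rfl
  | succ j ih =>
    simp only [hd, List.length_append, List.length_map, ih]
    rw [pow_succ]; ring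

theorem hd_row (j : ℕ) : ∀ r ∈ hd j, r.length = 2 ^ j := by
  induction j with
  | zero =>
    intro r hr
    simp only [hd, List.mem_singleton] at hr
    rw [hr]; rfl
  | succ j ih =>
    intro r hr
    simp only [hd, List.mem_append, List.mem_map] at hr
    rcases hr with ⟨a, ha, rfl⟩ | ⟨a, ha, rfl⟩
    · rw [List.length_append, ih a ha, pow_succ]; ring
    · rw [List.length_append, List.length_map, ih a ha, pow_succ]; ring

/-- Counting over the positions of a list. -/
theorem filter_range_getD {α : Type} (l : List α) (d : α) (p : α → Bool) :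
    ((List.range l.length).filter fun k => p (l.getD k d)).length = l.countP p := by
  induction l with
  | nil => rfl
  | cons a l ih =>
    rw [List.length_cons, List.range_succ_eq_map, List.filter_cons, List.countP_cons,
      List.filter_map, ← ih]
    have e : ((fun k => p ((a :: l).getD k d)) ∘ Nat.succ) = fun k => p (l.getD k d) := by
      funext k
      simp [Function.comp]
    rw [e]
    by_cases h : p a = true
    · simp [h]
    · simp [h]

theorem getD_map_not (r : List Bool) (x : ℕ) (h : x < r.length) :
    (r.map fun b => !b).getD x false = !(r.getD x false) := by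
  rw [List.getD_eq_getElem _ _ (by simpa using h), List.getD_eq_getElem _ _ h, List.getElem_map]

theorem col (j x : ℕ) (hx : x < 2 ^ j) :
    ((List.range (2 * 2 ^ j)).filter fun k =>
      ((cdw (hd j)).getD k []).getD x false).length = 2 ^ j := by
  have hl : (cdw (hd j)).length = 2 * 2 ^ j := by
    unfold cdw
    rw [List.length_append, List.length_map, hd_length]; ring
  rw [← hl, filter_range_getD (cdw (hd j)) [] (fun r => r.getD x false)]
  unfold cdw
  rw [List.countP_append, List.countP_map]
  have e : List.countP ((fun r : List Bool => r.getD x false) ∘ fun r => r.map fun b => !b)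
      (hd j) = List.countP (fun r : List Bool => !(r.getD x false)) (hd j) := by
    apply List.countP_congr
    intro r hr
    simp only [Function.comp]
    rw [getD_map_not r x (by rw [hd_row j r hr]; exact hx)]
  rw [e]
  have h2 : ∀ l : List (List Bool), List.countP (fun r : List Bool => r.getD x false) l +
      List.countP (fun r : List Bool => !(r.getD x false)) l = l.length := by
    intro l
    induction l with
    | nil => rfl
    | cons a l ih =>
      rw [List.countP_cons, List.countP_cons, List.length_cons, ← ih]
      cases h : a.getD x false <;> simp [h] <;> omega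
  rw [h2, hd_length]

/-- The sum of a row. -/
def rs (n : ℕ) (f : ℕ → ℤ) (r : List Bool) : ℤ :=
  ∑ x ∈ Finset.range n, if r.getD x false = true then f x else -f x

theorem rs_dbl (n : ℕ) (f : ℕ → ℤ) (r : List Bool) (h : r.length = n) :
    rs (n + n) f (r ++ r) = rs n f r + rs n (fun x => f (n + x)) r := by
  unfold rs
  rw [Finset.sum_range_add]
  congr 1
  · apply Finset.sum_congr rfl
    intro x hx
    rw [List.getD_append _ _ _ _ (by rw [h]; exact Finset.mem_range.1 hx)]
  · apply Finset.sum_congr rfl
    intro x hx
    rw [List.getD_append_right _ _ _ _ (by rw [h]; omega), h, Nat.add_sub_cancel_left]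

theorem rs_neg (n : ℕ) (f : ℕ → ℤ) (r : List Bool) (h : r.length = n) :
    rs (n + n) f (r ++ r.map fun b => !b) = rs n f r - rs n (fun x => f (n + x)) r := by
  unfold rs
  rw [Finset.sum_range_add, sub_eq_add_neg, ← Finset.sum_neg_distrib]
  congr 1
  · apply Finset.sum_congr rfl
    intro x hx
    rw [List.getD_append _ _ _ _ (by rw [h]; exact Finset.mem_range.1 hx)]
  · apply Finset.sum_congr rfl
    intro x hx
    rw [List.getD_append_right _ _ _ _ (by rw [h]; omega), h, Nat.add_sub_cancel_left,
      getD_map_not r x (by rw [h]; exact Finset.mem_range.1 hx)]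
    cases r.getD x false <;> simp

theorem parseval (j : ℕ) : ∀ f : ℕ → ℤ, ((hd j).map fun r => (rs (2 ^ j) f r) ^ 2).sum =
    2 ^ j * ∑ x ∈ Finset.range (2 ^ j), f x ^ 2 := by
  induction j with
  | zero =>
    intro f
    simp [hd, rs]
  | succ j ih =>
    intro f
    have e2 : 2 ^ (j + 1) = 2 ^ j + 2 ^ j := by rw [pow_succ]; ring
    rw [hd, List.map_append, List.sum_append, List.map_map, List.map_map]
    have e3 : ((hd j).map ((fun r => (rs (2 ^ (j + 1)) f r) ^ 2) ∘ fun r => r ++ r)) =
        (hd j).map (fun r => (rs (2 ^ j) f r + rs (2 ^ j) (fun x => f (2 ^ j + x)) r) ^ 2) := by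
      apply List.map_congr_left
      intro r hr
      simp only [Function.comp]
      rw [e2, rs_dbl _ f r (hd_row j r hr)]
    have e4 : ((hd j).map ((fun r => (rs (2 ^ (j + 1)) f r) ^ 2) ∘
        fun r => r ++ r.map fun b => !b)) =
        (hd j).map (fun r => (rs (2 ^ j) f r - rs (2 ^ j) (fun x => f (2 ^ j + x)) r) ^ 2) := by
      apply List.map_congr_left
      intro r hr
      simp only [Function.comp]
      rw [e2, rs_neg _ f r (hd_row j r hr)]
    rw [e3, e4, ← List.sum_map_add]
    have e5 : ((hd j).map fun r =>
        (rs (2 ^ j) f r + rs (2 ^ j) (fun x => f (2 ^ j + x)) r) ^ 2 +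
        (rs (2 ^ j) f r - rs (2 ^ j) (fun x => f (2 ^ j + x)) r) ^ 2) =
        (hd j).map fun r => (2 * (rs (2 ^ j) f r) ^ 2 +
          2 * (rs (2 ^ j) (fun x => f (2 ^ j + x)) r) ^ 2) := by
      apply List.map_congr_left
      intro r _
      ring
    rw [e5, List.sum_map_add, List.sum_map_mul_left, List.sum_map_mul_left, ih f,
      ih (fun x => f (2 ^ j + x)), e2, Finset.sum_range_add]
    push_cast
    rw [pow_succ]
    ring

end Pool.PG.H15R

namespace Pool.PG

theorem agm_row : AGMStmt := by
  intro q M hM
  obtain ⟨n, rfl⟩ : ∃ n, M = n + 1 := ⟨M - 1, by omega⟩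
  clear hM
  induction n with
  | zero =>
    rw [H15R.argm_succ]
    have h0 : argm q 0 = 0 := rfl
    rw [h0]
    simp
  | succ n ih =>
    obtain ⟨h1, h2⟩ := ih
    rw [H15R.argm_succ]
    split_ifs with h
    · refine ⟨by omega, fun k hk => ?_⟩
      rcases Nat.lt_succ_iff_lt_or_eq.1 hk with h3 | h3
      · exact (le_of_lt h).trans (h2 k h3)
      · rw [h3]
    · refine ⟨by omega, fun k hk => ?_⟩
      rcases Nat.lt_succ_iff_lt_or_eq.1 hk with h3 | h3
      · exact h2 k h3
      · rw [h3]; exact not_lt.1 h

theorem hdl_row : HDLStmt := by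
  intro L hL
  have key : ∀ k : ℕ, ∃ j : ℕ, (fun H : List (List Bool) => if H.length < L then
      H.map (fun r => r ++ r) ++ H.map (fun r => r ++ r.map fun b => !b) else H)^[k] [[true]] =
      hd j ∧ (j = k ∨ L ≤ 2 ^ j) ∧ 2 ^ j ≤ 2 * L := by
    intro k
    induction k with
    | zero => exact ⟨0, rfl, Or.inl rfl, by simpa using by omega⟩
    | succ k ih =>
      obtain ⟨j, h1, h2, h3⟩ := ih
      rw [Function.iterate_succ_apply', h1]
      by_cases h : 2 ^ j < L
      · refine ⟨j + 1, ?_, ?_, ?_⟩
        · simp only [H15R.hd_length, h, if_true]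
          rfl
        · rcases h2 with h2 | h2
          · left; rw [h2]
          · omega
        · rw [pow_succ]; omega
      · refine ⟨j, ?_, Or.inr (not_lt.1 h), h3⟩
        simp only [H15R.hd_length, h, if_false]
  obtain ⟨j, h1, h2, h3⟩ := key L
  refine ⟨j, h1, ?_, h3⟩
  rcases h2 with h2 | h2
  · rw [h2]; exact Nat.lt_two_pow_self.le
  · exact h2

theorem had_row : HADStmt := by
  intro j
  exact ⟨H15R.hd_length j, H15R.hd_row j, fun x hx => H15R.col j x hx, H15R.parseval j⟩

end Pool.PG
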