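import Pool.Agent.H59.PG.Stmts

/-!
# Row EAS of the board pgm: the easy implications
-/

set_option autoImplicit false

namespace Pool.PG

open TMLib

theorem eas_row (h1 : SOLStmt) (h2 : RSTStmt) (h3 : RSLStmt) (h4 : PRSStmt) : EASStmt := by
  have hw : ∀ (g : Game) (b : Bool) (v : ℕ), Valid g → v < g.length →
      (b = true ↔ Win g true v) → Win g b v := by
    intro g b v hg hv hb
    have hs := (h1 g hg).2 v hv
    rw [hs b]
    rw [hs true] at hb
    cases b <;> cases hwv : win g v <;> simp_all
  refine ⟨?_, ?_, ?_, ?_, ?_, ?_, ?_⟩
  · rintro δ ⟨B, hB, hs⟩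
    refine ⟨fun g => (List.range g.length).map fun v => B (g, v), ?_, ?_⟩
    · exact PTime.map (PTime.range (PTime.length PTime.id)) hB
    · intro g hg
      have hr : right g ((List.range g.length).map fun v => B (g, v)) = g.length := by
        classical
        unfold right
        rw [Finset.filter_true_of_mem, Finset.card_range]
        intro v hv
        have hv' : v < g.length := Finset.mem_range.1 hv
        have e : (List.map (fun v => B (g, v)) (List.range g.length)).getD v false = B (g, v) := by
          rw [List.getD_eq_getElem _ _ (by simpa using hv')]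
          simp
        rw [e]
        exact hw g _ v hg hv' (hs g v hg hv')
      rw [hr]
      have h5 : (0 : ℝ) ≤ (g.length : ℝ) ^ δ := Real.rpow_nonneg (Nat.cast_nonneg _) _
      have h6 : (0 : ℝ) ≤ (g.length : ℝ) := Nat.cast_nonneg _
      linarith
  · rintro ⟨B, hB, hs⟩
    refine ⟨fun g => (0, B (g, 0)), ?_, ?_⟩
    · exact PTime.pair (PTime.const 0) (hB.comp (PTime.pair PTime.id (PTime.const 0)))
    · intro g hg h0
      exact ⟨h0, hw g _ 0 hg h0 (hs g 0 hg h0)⟩
  · rintro ⟨B, hB, hs⟩
    refine ⟨fun g => ((List.range g.length).filter fun v => B (g, v)).length, ?_, ?_⟩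
    · exact PTime.length (PTime.filter (PTime.range (PTime.length PTime.id)) hB)
    · intro g hg h0
      have e : ((List.range g.length).filter fun v => B (g, v)).length = numWin g := by
        unfold numWin
        have e1 : ((List.range g.length).filter fun v => B (g, v)).length =
            ((Finset.range g.length).filter fun v => B (g, v) = true).card := by
          rw [← List.toFinset_card_of_nodup (List.Nodup.filter _ List.nodup_range)]
          congr 1
          ext v
          simp
        rw [e1]
        congr 1
        ext v
        simp only [Finset.mem_filter, Finset.mem_range]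
        constructor
        · rintro ⟨h5, h6⟩
          exact ⟨h5, (hs g v hg h5).1 h6⟩
        · rintro ⟨h5, h6⟩
          exact ⟨h5, (hs g v hg h5).2 h6⟩
      simp only [e, sub_self, abs_zero, mul_zero]
      exact_mod_cast h0
  · rintro m hm ⟨B, hB, hs⟩
    refine ⟨fun l => [B (l.getD 0 ([], 0))], ?_, ?_⟩
    · exact PTime.cons (hB.comp (PTime.listGetD PTime.id (PTime.const 0) (PTime.const ([], 0))))
        (PTime.const [])
    · intro l hl hv
      refine ⟨0, hm, ?_⟩
      have h5 : l.getD 0 ([], 0) ∈ l := by
        rw [List.getD_eq_getElem _ _ (by omega)]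
        exact List.getElem_mem _
      obtain ⟨h6, h7⟩ := hv _ h5
      have e : ([B (l.getD 0 ([], 0))] : List Bool).getD 0 false = B (l.getD 0 ([], 0)) := rfl
      rw [e]
      exact hw (l.getD 0 ([], 0)).1 _ (l.getD 0 ([], 0)).2 h6 h7
        (hs (l.getD 0 ([], 0)).1 (l.getD 0 ([], 0)).2 h6 h7)
  · rintro ⟨B, hB, hs⟩
    refine ⟨fun g => (B g).2, PTime.snd hB, ?_⟩
    intro g i hg h0 hi
    obtain ⟨h5, h6⟩ := hs g hg h0
    have h7 := (h1 g hg).2 _ h5
    exact ((h7 _).1 h6).symm.trans ((h7 _).1 (hi _ h5))
  · rintro ⟨B, hB, hs⟩
    refine ⟨fun g => decide (g.length < 2 * B g), ?_, ?_⟩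
    · have h5 : PTime (fun g : Game => g.length) := PTime.length PTime.id
      have h6 : PTime (fun g : Game => 2 * B g) := PTime.mul (PTime.const 2) hB
      exact PTime.lt h5 h6
    · intro g i hg h0 hi
      have h5 := hs g hg h0
      cases i with
      | true =>
        have h6 : numWin g = g.length := by
          classical
          unfold numWin
          rw [Finset.filter_true_of_mem, Finset.card_range]
          intro v hv
          exact hi v (Finset.mem_range.1 hv)
        rw [h6] at h5
        have h7 := (abs_lt.1 (show |2 * ((B g : ℤ) - g.length)| < g.length by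
          rw [abs_mul]; simpa using h5)).1
        simp only [decide_eq_true_eq]
        omega
      | false =>
        have h6 : numWin g = 0 := by
          classical
          unfold numWin
          rw [Finset.card_eq_zero, Finset.filter_eq_empty_iff]
          intro v hv h7
          have h8 := (h1 g hg).2 v (Finset.mem_range.1 hv)
          have h9 := (h8 false).1 (hi v (Finset.mem_range.1 hv))
          have h10 := (h8 true).1 h7
          rw [h9] at h10
          exact absurd h10 (by decide)
        rw [h6] at h5
        have h7 := (abs_lt.1 (show |2 * ((B g : ℤ) - (0 : ℕ))| < g.length by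
          rw [abs_mul]; simpa using h5)).2
        simp only [decide_eq_false_iff_not, not_lt]
        omega
  · rintro ⟨B, hB, hs⟩
    refine ⟨fun p => B (rst p.2 p.1), ?_, ?_⟩
    · exact hB.comp (h4.comp (PTime.pair (PTime.snd PTime.id) (PTime.fst PTime.id)))
    · intro g v hg hv
      have hr := (h3 g v).2.2.2.2.2 hg hv
      have hl : 0 < (rst v g).length := by rw [(h3 g v).1]; omega
      have h5 : B (rst v g) = win g v := by
        refine hs _ _ hr hl ?_
        intro u hu
        rw [(h1 _ hr).2 u hu]
        exact h2 g v hg hv u hu
      show B (rst v g) = true ↔ _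
      rw [h5, (h1 g hg).2 v hv true]

end Pool.PG
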