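import Pool.Agent.H59.PG.BinDefs

/-!
# Row NUM of the board pgm: numbers in binary
-/

set_option autoImplicit false

namespace Pool.PG.H15N

open TMLib

theorem val_cons (b : Bool) (l : List Bool) : val (b :: l) = b.toNat + 2 * val l := rfl

theorem min_fold (n : ℕ) (l : List Bool) :
    l.reverse.foldl (fun acc b => min (b.toNat + 2 * acc) n) 0 = min (val l) n := by
  induction l with
  | nil => simp [val]
  | cons b l ih =>
    rw [List.reverse_cons, List.foldl_append, ih, val_cons]
    simp only [List.foldl_cons, List.foldl_nil]
    omega

theorem toNat_ptime {α : Type} [Enc α] {f : α → Bool} (hf : PTime f) :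
    PTime (fun x => (f x).toNat) :=
  (PTime.cond hf (PTime.const 1) (PTime.const 0)).congr fun x => by cases f x <;> rfl

/-- One step of the comparison. -/
def cst (p : List Bool × List Bool) (s : Bool) (i : ℕ) : Bool :=
  if p.1.getD i false = p.2.getD i false then s else p.2.getD i false

/-- The comparison. -/
def cmpr (p : List Bool × List Bool) (n : ℕ) : Bool := (List.range n).foldl (cst p) false

/-- The value of the first `n` bits. -/
def vn (l : List Bool) (n : ℕ) : ℕ := ∑ i ∈ Finset.range n, (l.getD i false).toNat * 2 ^ i

theorem vn_lt (l : List Bool) (n : ℕ) : vn l n < 2 ^ n := by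
  induction n with
  | zero => simp [vn]
  | succ n ih =>
    have h : vn l (n + 1) = vn l n + (l.getD n false).toNat * 2 ^ n := Finset.sum_range_succ _ _
    rw [h, pow_succ]
    cases l.getD n false <;> simp <;> omega

theorem vn_val (l : List Bool) : ∀ n, l.length ≤ n → vn l n = val l := by
  induction l with
  | nil => intro n _; simp [vn, val]
  | cons b l ih =>
    intro n hn
    obtain ⟨k, rfl⟩ : ∃ k, n = k + 1 := ⟨n - 1, by simp at hn; omega⟩
    have hk : l.length ≤ k := by simpa using hn
    unfold vn
    rw [Finset.sum_range_succ', val_cons, ← ih k hk]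
    unfold vn
    rw [Finset.mul_sum, add_comm]
    congr 1
    · simp
    · apply Finset.sum_congr rfl
      intro i _
      rw [List.getD_cons_succ, pow_succ]
      ring

theorem cmpr_eq (p : List Bool × List Bool) (n : ℕ) :
    cmpr p n = decide (vn p.1 n < vn p.2 n) := by
  induction n with
  | zero => simp [cmpr, vn]
  | succ n ih =>
    have h : cmpr p (n + 1) = cst p (cmpr p n) n := by
      unfold cmpr
      rw [List.range_succ, List.foldl_append]
      rfl
    have h1 : vn p.1 (n + 1) = vn p.1 n + (p.1.getD n false).toNat * 2 ^ n :=
      Finset.sum_range_succ _ _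
    have h2 : vn p.2 (n + 1) = vn p.2 n + (p.2.getD n false).toNat * 2 ^ n :=
      Finset.sum_range_succ _ _
    have h3 := vn_lt p.1 n
    have h4 := vn_lt p.2 n
    rw [h, h1, h2, ih]
    unfold cst
    cases p.1.getD n false <;> cases p.2.getD n false <;> simp <;> omega

theorem cmpr_ptime : PTime (fun p : List Bool × List Bool =>
    (List.range (p.1.length + p.2.length)).foldl (cst p) false) := by
  refine PTime.foldl (f := fun p s i => cst p s i) (init := fun _ => false)
    (l := fun p : List Bool × List Bool => List.range (p.1.length + p.2.length)) ?_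
    (PTime.const false) (PTime.range (PTime.add (PTime.length (PTime.fst PTime.id))
      (PTime.length (PTime.snd PTime.id)))) (h := fun _ => 3) (PB.const 3) ?_
  · have ha : PTime (fun q : (List Bool × List Bool) × Bool × ℕ => q.1.1.getD q.2.2 false) :=
      PTime.listGetD (PTime.fst (PTime.fst PTime.id)) (PTime.snd (PTime.snd PTime.id))
        (PTime.const false)
    have hb : PTime (fun q : (List Bool × List Bool) × Bool × ℕ => q.1.2.getD q.2.2 false) :=
      PTime.listGetD (PTime.snd (PTime.fst PTime.id)) (PTime.snd (PTime.snd PTime.id))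
        (PTime.const false)
    exact PTime.ite (PTime.eq ha hb) (PTime.fst (PTime.snd PTime.id)) hb
  · intro a l' _
    exact sz_bool_le _

end Pool.PG.H15N

namespace Pool.PG

open TMLib N487b59b3

theorem num_row : NUMStmt := by
  refine ⟨?_, ?_, ?_⟩
  · have h := PTime.foldl
      (f := fun (p : List Bool × ℕ) (acc : ℕ) (b : Bool) => min (b.toNat + 2 * acc) p.2)
      (init := fun _ => 0) (l := fun p : List Bool × ℕ => p.1.reverse)
      (PTime.min (PTime.add (H15N.toNat_ptime (PTime.snd (PTime.snd PTime.id)))
        (PTime.mul (PTime.const 2) (PTime.fst (PTime.snd PTime.id))))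
        (PTime.snd (PTime.fst PTime.id)))
      (PTime.const 0) (PTime.reverse (PTime.fst PTime.id)) (h := fun p => sz p) PB.sz_self ?_
    · exact h.congr fun p => (H15N.min_fold p.2 p.1).symm
    · intro a l' _
      rcases l'.eq_nil_or_concat with rfl | ⟨l'', b, rfl⟩
      · simp only [List.foldl_nil, sz_pair, sz_nat]
        omega
      · rw [List.concat_eq_append, List.foldl_append]
        simp only [List.foldl_cons, List.foldl_nil, sz_pair, sz_nat]
        omega
  · refine H15N.cmpr_ptime.congr fun p => ?_
    have h := H15N.cmpr_eq p (p.1.length + p.2.length)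
    rw [H15N.vn_val p.1 _ (by omega), H15N.vn_val p.2 _ (by omega)] at h
    exact h.symm
  · intro n
    have h : bitEncode n = n.bits := encodeNat_eq n
    rw [h]
    induction n using Nat.binaryRec' with
    | zero => rfl
    | bit b n hn ih =>
      rw [Nat.bits_append_bit n b hn, H15N.val_cons, ih (encodeNat_eq n), Nat.bit_val]
      ring

end Pool.PG
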